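import Pool.Agent.MP_5fe217_an.Mg.H77_Bridge

namespace Pool.Agent.Results.MP_5fe217_an.Starlike

open Pool.Agent.MP_5fe217_an.H77

/-- In every dimension, with A the identity, the starlike map z / (1 - z_i ^ 2) is not a support point of the
starlike class although its generating field is a support point of the generator class. -/
theorem result : ∀ (n : ℕ) (i : Fin n),
    InA (ContinuousLinearMap.id ℂ (EuclideanSpace ℂ (Fin n))) ∧
    Violates (ContinuousLinearMap.id ℂ (EuclideanSpace ℂ (Fin n))) (fun z => z i) := by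
  intro n i
  refine ⟨by rw [InA, kplus_id i, mlow_id i]; norm_num, mk _ (star_F (i := i)).1, mk _ (car_H (i := i)).1,
    fun z => rfl, star_F.mk_mem, fun z => ?_, ⟨car_H.mk_mem, Lam0 i,
      ⟨_, car_id.mk_mem, _, (car_H (i := i)).mk_mem, ?_⟩, fun g hg => ?_⟩, ?_⟩
  · rw [fderiv_extz_mk _ z.2]
    exact ⟨star_F.invertible z.2, (inverse_F z.2).symm⟩
  · rw [Lam0_mk, Lam0_mk, L0_id, L0_H]; norm_num
  · rw [Lam0_mk, L0_H, Lam0_eq]
    refine (L0_le (car_extz hg)).trans ?_
    norm_num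
  · rintro ⟨-, Λ, ⟨g₁, h₁, g₂, h₂, hne⟩, hmax⟩
    have key : ∀ g ∈ Shat (ContinuousLinearMap.id ℂ (Cn n)), Λ g = toL Λ id := fun g hg => by
      have h1 := F_not_support (i := i) (fnl_toL Λ) (fun g' hg' => by
        rw [toL_eq Λ hg'.1, toL_eq Λ (star_F (i := i)).1]
        exact hmax _ hg'.mk_mem) g.2 hg.1.1 hg.1.2
      rw [← h1, toL_eq Λ g.2]
      exact congrArg Λ (mk_extz g).symm
    exact hne (by rw [key g₁ h₁, key g₂ h₂])

end Pool.Agent.Results.MP_5fe217_an.Starlike
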